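import Pool.Agent.L0h19.QE.Stm

set_option autoImplicit false

/-!
# Project QE, module CIQ: the circle method on `ZMod Q` for diagonal quadratic equations

Adapted from `Pool/Agent/L0h29/LE/CIR.lean` (helper29).
-/

namespace Pool.Agent.L0h66.QE

open Finset Pool.Agent.L0h87.LE Pool.Agent.L0h19.QE

open scoped ComplexConjugate

/-- the exponential sum on `ZMod Q` -/
noncomputable def F (Q : ℕ) [NeZero Q] (f : ℕ → ℝ) (N : ℕ) (a : ℤ) (x : ZMod Q) : ℂ :=
  ∑ m ∈ odds N, (f m : ℂ) * ZMod.stdAddChar (x * ((a * (m : ℤ) ^ 2 : ℤ) : ZMod Q))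

theorem F_eq {Q : ℕ} [NeZero Q] (f : ℕ → ℝ) (N : ℕ) (a : ℤ) (x : ZMod Q) :
    F Q f N a x = S2 f N ((a : ℝ) * x.val / Q) := by
  unfold F S2
  refine Finset.sum_congr rfl fun m _ => ?_
  congr 1
  have h : x * ((a * (m : ℤ) ^ 2 : ℤ) : ZMod Q) = (((x.val : ℤ) * (a * m ^ 2) : ℤ) : ZMod Q) := by
    push_cast
    rw [ZMod.natCast_zmod_val]
  rw [h, ZMod.stdAddChar_coe, ee]
  congr 1
  push_cast
  ring

theorem orth {Q : ℕ} [NeZero Q] (t : ℤ) :
    ∑ x : ZMod Q, (ZMod.stdAddChar (x * (t : ZMod Q)) : ℂ) = if (Q : ℤ) ∣ t then (Q : ℂ) else 0 := by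
  rw [AddChar.sum_mulShift _ (ZMod.isPrimitive_stdAddChar Q)]
  simp [ZMod.intCast_zmod_eq_zero_iff_dvd, ZMod.card]

theorem card_odds (N : ℕ) : ((odds N).card : ℝ) ≤ N := by
  have h : (odds N).card ≤ (Icc 1 N).card := Finset.card_filter_le _ _
  rw [Nat.card_Icc] at h
  exact_mod_cast h

theorem norm_F {Q : ℕ} [NeZero Q] {C : ℝ} (f : ℕ → ℝ) (hf : ∀ m, |f m| ≤ C) (N : ℕ) (a : ℤ)
    (hC : 0 ≤ C) (x : ZMod Q) : ‖F Q f N a x‖ ≤ C * N := by
  unfold F
  calc ‖∑ m ∈ odds N, (f m : ℂ) * ZMod.stdAddChar (x * ((a * (m : ℤ) ^ 2 : ℤ) : ZMod Q))‖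
      ≤ ∑ m ∈ odds N, ‖(f m : ℂ) * ZMod.stdAddChar (x * ((a * (m : ℤ) ^ 2 : ℤ) : ZMod Q))‖ :=
        norm_sum_le _ _
    _ ≤ ∑ _m ∈ odds N, C := by
        refine Finset.sum_le_sum fun m _ => ?_
        rw [norm_mul, AddChar.norm_apply, mul_one, Complex.norm_real]
        exact hf m
    _ = (odds N).card * C := by simp
    _ ≤ C * N := by
        rw [mul_comm]
        exact mul_le_mul_of_nonneg_left (card_odds N) hC

theorem char_sum {Q : ℕ} [NeZero Q] {ι : Type*} (s : Finset ι) (f : ι → ZMod Q) :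
    (ZMod.stdAddChar (∑ i ∈ s, f i) : ℂ) = ∏ i ∈ s, ZMod.stdAddChar (f i) := by
  classical
  induction s using Finset.induction_on with
  | empty => simp
  | insert i s hi ih => rw [Finset.sum_insert hi, Finset.prod_insert hi, AddChar.map_add_eq_mul, ih]

theorem main {Q : ℕ} [NeZero Q] {k : ℕ} (a : Fin k → ℤ) (N : ℕ) (n : ℤ) (w : Fin k → ℕ → ℝ)
    (hQ : (∑ i, |a i|) * (N : ℤ) ^ 2 + |n| < Q) :
    (Q : ℂ) * (G2 a N n w : ℂ) =
      ∑ x : ZMod Q, ZMod.stdAddChar (x * ((-n : ℤ) : ZMod Q)) * ∏ i, F Q (w i) N (a i) x := by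
  unfold F
  calc (Q : ℂ) * (G2 a N n w : ℂ)
      = ∑ m ∈ Fintype.piFinset fun _ : Fin k => odds N, (∏ i, (w i (m i) : ℂ)) *
          (if (Q : ℤ) ∣ (∑ i, a i * (m i : ℤ) ^ 2 - n) then (Q : ℂ) else 0) := by
        unfold G2
        rw [Finset.sum_filter]
        push_cast
        rw [Finset.mul_sum]
        refine Finset.sum_congr rfl fun m hm => ?_
        have h : (∑ i, a i * (m i : ℤ) ^ 2 = n) ↔ (Q : ℤ) ∣ (∑ i, a i * (m i : ℤ) ^ 2 - n) := by
          constructor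
          · intro h
            rw [h, sub_self]
            exact dvd_zero _
          · intro h
            have h2 : |∑ i, a i * (m i : ℤ) ^ 2 - n| < Q := by
              refine lt_of_le_of_lt ?_ hQ
              refine (abs_sub _ _).trans ?_
              refine add_le_add ?_ le_rfl
              refine (Finset.abs_sum_le_sum_abs _ _).trans ?_
              rw [Finset.sum_mul]
              refine Finset.sum_le_sum fun i _ => ?_
              rw [abs_mul]
              refine mul_le_mul_of_nonneg_left ?_ (abs_nonneg _)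
              have h3 := Fintype.mem_piFinset.1 hm i
              simp only [odds, Finset.mem_filter, Finset.mem_Icc] at h3
              rw [abs_pow]
              refine pow_le_pow_left₀ (abs_nonneg _) ?_ 2
              rw [abs_le]
              constructor <;> omega
            have h3 := Int.eq_zero_of_abs_lt_dvd h h2
            omega
        by_cases h' : ∑ i, a i * (m i : ℤ) ^ 2 = n
        · rw [if_pos h', if_pos (h.1 h')]
          push_cast
          ring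
        · rw [if_neg h', if_neg (fun h2 => h' (h.2 h2))]
          simp
    _ = ∑ m ∈ Fintype.piFinset fun _ : Fin k => odds N, (∏ i, (w i (m i) : ℂ)) *
          ∑ x : ZMod Q, ZMod.stdAddChar (x * ((∑ i, a i * (m i : ℤ) ^ 2 - n : ℤ) : ZMod Q)) := by
        refine Finset.sum_congr rfl fun m _ => ?_
        rw [orth]
    _ = ∑ x : ZMod Q, ZMod.stdAddChar (x * ((-n : ℤ) : ZMod Q)) *
          ∑ m ∈ Fintype.piFinset fun _ : Fin k => odds N, ∏ i, ((w i (m i) : ℂ) *
            ZMod.stdAddChar (x * ((a i * (m i : ℤ) ^ 2 : ℤ) : ZMod Q))) := by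
        simp only [Finset.mul_sum]
        rw [Finset.sum_comm]
        refine Finset.sum_congr rfl fun x _ => Finset.sum_congr rfl fun m _ => ?_
        rw [Finset.prod_mul_distrib]
        have h : x * ((∑ i, a i * (m i : ℤ) ^ 2 - n : ℤ) : ZMod Q) =
            x * ((-n : ℤ) : ZMod Q) +
            ∑ i, x * ((a i * (m i : ℤ) ^ 2 : ℤ) : ZMod Q) := by
          rw [← Finset.mul_sum]
          push_cast
          ring
        rw [h, AddChar.map_add_eq_mul, char_sum]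
        ring
    _ = _ := by
        refine Finset.sum_congr rfl fun x _ => ?_
        rw [Finset.prod_univ_sum]

/-- the sum over `ZMod Q` as a sum over `range Q` -/
theorem sum_val {Q : ℕ} [NeZero Q] (g : ℕ → ℝ) :
    ∑ x : ZMod Q, g x.val = ∑ r ∈ range Q, g r := by
  refine Finset.sum_bij (fun x _ => x.val) (fun x _ => Finset.mem_range.2 (ZMod.val_lt x))
    (fun x _ y _ h => ZMod.val_injective Q h) (fun r hr => ⟨(r : ZMod Q), Finset.mem_univ _, ?_⟩)
    (fun x _ => rfl)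
  exact ZMod.val_cast_of_lt (Finset.mem_range.1 hr)

/-- a product of six numbers is at most the sum of their sixth powers -/
theorem prod_six {ι : Type*} (T : Finset ι) (x : ι → ℝ) (hx : ∀ i, 0 ≤ x i) (hT : T.card = 6) :
    ∏ i ∈ T, x i ≤ ∑ i ∈ T, x i ^ 6 := by
  have hne : T.Nonempty := by
    rw [← Finset.card_pos, hT]
    norm_num
  obtain ⟨j, hj, hmax⟩ := Finset.exists_max_image T x hne
  calc ∏ i ∈ T, x i ≤ ∏ _i ∈ T, x j := Finset.prod_le_prod (fun i _ => hx i) hmax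
    _ = x j ^ 6 := by rw [Finset.prod_const, hT]
    _ ≤ ∑ i ∈ T, x i ^ 6 :=
        Finset.single_le_sum (f := fun i => x i ^ 6) (fun i _ => pow_nonneg (hx i) 6) hj

theorem t_CIQ : S_CIQ := by
  classical
  intro hMom k hk a ha N n C E w i₀ hC hE hw hS
  obtain ⟨Q, hQ⟩ : ∃ Q : ℕ, 3 * (∑ i, |a i|) * (N : ℤ) ^ 2 + |n| < (Q : ℤ) := by
    obtain ⟨Q, hQ⟩ := Int.eq_ofNat_of_zero_le
      (a := 3 * (∑ i, |a i|) * (N : ℤ) ^ 2 + |n| + 1) (by positivity)
    exact ⟨Q, by rw [← hQ]; omega⟩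
  have hsum0 : 0 ≤ (∑ i, |a i|) * (N : ℤ) ^ 2 := by positivity
  have hQ1 : (∑ i, |a i|) * (N : ℤ) ^ 2 + |n| < (Q : ℤ) := by
    refine lt_of_le_of_lt ?_ hQ
    linarith
  have hQ0 : 0 < (Q : ℤ) := lt_of_le_of_lt (by positivity) hQ
  have : NeZero Q := ⟨by omega⟩
  have hQr : (0 : ℝ) < Q := by exact_mod_cast hQ0
  have hQi : ∀ i, 3 * |a i| * (N : ℤ) ^ 2 < (Q : ℤ) := fun i => by
    refine lt_of_le_of_lt ?_ hQ
    have h1 : |a i| ≤ ∑ i, |a i| :=
      Finset.single_le_sum (f := fun i => |a i|) (fun i _ => abs_nonneg _) (Finset.mem_univ i)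
    have h2 : 3 * |a i| * (N : ℤ) ^ 2 ≤ 3 * (∑ i, |a i|) * (N : ℤ) ^ 2 :=
      mul_le_mul_of_nonneg_right (by linarith) (by positivity)
    have h3 := abs_nonneg n
    linarith
  obtain ⟨T, hTs, hTc⟩ : ∃ T ⊆ (Finset.univ : Finset (Fin k)).erase i₀, T.card = 6 := by
    apply Finset.exists_subset_card_eq
    rw [Finset.card_erase_of_mem (Finset.mem_univ _), Finset.card_univ, Fintype.card_fin]
    omega
  have key : (Q : ℝ) * |G2 a N n w| ≤ ∑ x : ZMod Q, ∏ i, ‖F Q (w i) N (a i) x‖ := by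
    have h := congrArg (fun z => ‖z‖) (main a N n w hQ1)
    simp only [norm_mul, Complex.norm_real, Complex.norm_natCast, Real.norm_eq_abs] at h
    rw [h]
    refine (norm_sum_le _ _).trans (le_of_eq ?_)
    refine Finset.sum_congr rfl fun x _ => ?_
    rw [norm_mul, AddChar.norm_apply, one_mul, norm_prod]
  have hCN : 0 ≤ C * N := mul_nonneg hC (Nat.cast_nonneg N)
  have hb : ∀ x : ZMod Q, ∏ i, ‖F Q (w i) N (a i) x‖ ≤
      E * (C * N) ^ (k - 7) * ∑ i ∈ T, ‖F Q (w i) N (a i) x‖ ^ 6 := by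
    intro x
    rw [← Finset.mul_prod_erase Finset.univ _ (Finset.mem_univ i₀),
      ← Finset.prod_sdiff hTs]
    have hp : ∏ i ∈ (Finset.univ.erase i₀) \ T, ‖F Q (w i) N (a i) x‖ ≤ (C * N) ^ (k - 7) := by
      have hc : ((Finset.univ.erase i₀) \ T : Finset (Fin k)).card = k - 7 := by
        rw [Finset.card_sdiff_of_subset hTs, hTc, Finset.card_erase_of_mem (Finset.mem_univ _),
          Finset.card_univ, Fintype.card_fin]
        omega
      rw [← hc]
      refine (Finset.prod_le_prod (fun i _ => norm_nonneg _)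
        (fun i _ => norm_F (w i) (hw i) N (a i) hC x)).trans (le_of_eq ?_)
      rw [Finset.prod_const]
    have h0 : ‖F Q (w i₀) N (a i₀) x‖ ≤ E := by
      rw [F_eq]
      exact hS _
    have h6 := prod_six T (fun i => ‖F Q (w i) N (a i) x‖) (fun i => norm_nonneg _) hTc
    have hpp : 0 ≤ ∏ i ∈ (Finset.univ.erase i₀) \ T, ‖F Q (w i) N (a i) x‖ :=
      Finset.prod_nonneg fun i _ => norm_nonneg _
    have hpt : 0 ≤ ∏ i ∈ T, ‖F Q (w i) N (a i) x‖ := Finset.prod_nonneg fun i _ => norm_nonneg _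
    calc ‖F Q (w i₀) N (a i₀) x‖ * ((∏ i ∈ (Finset.univ.erase i₀) \ T, ‖F Q (w i) N (a i) x‖) *
          ∏ i ∈ T, ‖F Q (w i) N (a i) x‖)
        ≤ E * ((C * N) ^ (k - 7) * ∑ i ∈ T, ‖F Q (w i) N (a i) x‖ ^ 6) := by
          refine mul_le_mul h0 ?_ (mul_nonneg hpp hpt) hE
          exact mul_le_mul hp h6 hpt (pow_nonneg hCN _)
      _ = _ := by ring
  have hmom : ∀ i, ∑ x : ZMod Q, ‖F Q (w i) N (a i) x‖ ^ 6 ≤ Q * (432 * C ^ 6 * (N : ℝ) ^ 4) := by
    intro i
    have h1 := hMom (w i) C (a i) N Q hC (hw i) (ha i) (hQi i)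
    have h2 : ∑ x : ZMod Q, ‖F Q (w i) N (a i) x‖ ^ 6 =
        ∑ r ∈ range Q, ‖S2 (w i) N (a i * r / Q)‖ ^ 6 := by
      rw [← sum_val (Q := Q) (fun r => ‖S2 (w i) N (a i * r / Q)‖ ^ 6)]
      refine Finset.sum_congr rfl fun x _ => ?_
      rw [F_eq]
    rw [h2]
    rw [one_div, inv_mul_le_iff₀ hQr] at h1
    exact h1
  have hsum : ∑ x : ZMod Q, ∏ i, ‖F Q (w i) N (a i) x‖ ≤
      E * (C * N) ^ (k - 7) * (6 * (Q * (432 * C ^ 6 * (N : ℝ) ^ 4))) := by
    refine (Finset.sum_le_sum fun x _ => hb x).trans ?_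
    rw [← Finset.mul_sum]
    refine mul_le_mul_of_nonneg_left ?_ (mul_nonneg hE (pow_nonneg hCN _))
    rw [Finset.sum_comm]
    refine (Finset.sum_le_sum fun i _ => hmom i).trans (le_of_eq ?_)
    rw [Finset.sum_const, hTc, nsmul_eq_mul]
    norm_num
  have hfin : (Q : ℝ) * |G2 a N n w| ≤ Q * (2592 * E * C ^ (k - 1) * N ^ (k - 3)) := by
    refine (key.trans hsum).trans (le_of_eq ?_)
    obtain ⟨j, rfl⟩ := Nat.exists_eq_add_of_le hk
    have e1 : 7 + j - 7 = j := by omega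
    have e2 : 7 + j - 1 = j + 6 := by omega
    have e3 : 7 + j - 3 = j + 4 := by omega
    rw [e1, e2, e3, mul_pow]
    ring
  exact le_of_mul_le_mul_left hfin hQr

end Pool.Agent.L0h66.QE
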